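import Pool.Agent.Lib.MP_89d95d_co.Cube

namespace Pool.Agent.Results.MP_89d95d_co.CubeCondition

open Pool.Agent.Lib.MP_89d95d_co

/-- Every graph with a well-covered seed has the cube completion property. -/
theorem result (W : Type) (H : SimpleGraph W) (hH : HasWellCoveredSeed H) : CubeCompletion H :=
  cubeCompletion_of_seed hH

end Pool.Agent.Results.MP_89d95d_co.CubeCondition
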